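import Pool.Agent.Lib.helper5.L1Sub

open Set TopologicalSpace Topology

namespace Pool.Agent.Results.MP_a4e3f3_an.NoNorming

universe u

/-- The subspace `N` of `Z*` is `l`-norming. -/
def Norming {Z : Type} [NormedAddCommGroup Z] [NormedSpace ℝ Z] (l : ℝ)
    (N : Submodule ℝ (Z →L[ℝ] ℝ)) : Prop :=
  ∀ z : Z, l * ‖z‖ ≤ sSup {r | ∃ ψ ∈ N, ‖ψ‖ ≤ 1 ∧ r = |ψ z|}

/-- `{e α; φ α}` is an M-basis of `Z`. -/
def IsMBasis {Z : Type} [NormedAddCommGroup Z] [NormedSpace ℝ Z] {A : Type u} (e : A → Z)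
    (φ : A → Z →L[ℝ] ℝ) : Prop :=
  (∀ α, φ α (e α) = 1) ∧ (∀ α β, α ≠ β → φ α (e β) = 0) ∧
    Dense ((Submodule.span ℝ (range e) : Submodule ℝ Z) : Set Z) ∧ ∀ z, (∀ α, φ α z = 0) → z = 0

/-- `Z` admits a norming M-basis (indexed by some type `A`). -/
def HasNormingMBasis (Z : Type) [NormedAddCommGroup Z] [NormedSpace ℝ Z] : Prop :=
  ∃ (A : Type u) (e : A → Z) (φ : A → Z →L[ℝ] ℝ), IsMBasis e φ ∧
    ∃ l : ℝ, 0 < l ∧ l ≤ 1 ∧ Norming l (Submodule.span ℝ (range φ))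

/-- Every closed subspace of `E` admits a norming M-basis. -/
def AllSubspaces (E : Type) [NormedAddCommGroup E] [NormedSpace ℝ E] : Prop :=
  ∀ Z : Submodule ℝ E, IsClosed (Z : Set E) → HasNormingMBasis.{u} Z

/-- For some uncountable `Γ`, some closed subspace of real `ℓ₁(Γ)` has no norming M-basis. -/
theorem result : ∃ Γ : Type, Uncountable Γ ∧ ¬ AllSubspaces.{u} (lp (fun _ : Γ => ℝ) 1) := by
  obtain ⟨Γ, Z, hZ, s, hs, k⟩ := H5E.main
  have := hZ.completeSpace_coe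
  refine ⟨Γ, not_countable_iff.1 fun h => k (.id ℝ Z) (fun _ _ => rfl) ?_, fun h => ?_⟩
  · exact (IsEmbedding.subtypeVal.isSeparable_preimage
      (H5E.sepL (Γ := Γ) countable_univ)).mono fun x _ γ h => (h trivial).elim
  obtain ⟨A, e, φ, ⟨-, h2, h3, -⟩, l, l0, -, h4⟩ := h Z hZ
  have n0 := (norm_zero (E := Z →L[ℝ] ℝ)).trans_le zero_le_one
  obtain ⟨P, p1, p2⟩ := H5E.proj h3 (half_pos l0) (fun x => by
    by_cases e0 : x = 0
    · exact ⟨0, by simp, n0, by simp [e0]⟩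
    obtain ⟨_, ⟨f, f1, f2, rfl⟩, f3⟩ := exists_lt_of_lt_csSup (by exact ⟨_, 0, zero_mem _, n0, rfl⟩)
      ((mul_lt_mul_of_pos_right (half_lt_self l0) (norm_pos_iff.2 e0)).trans_le (h4 x))
    refine ⟨f, ?_, f2, f3.le⟩
    clear f2 f3
    induction f1 using Submodule.span_induction with
    | mem _ h =>
      obtain ⟨α, rfl⟩ := h
      refine (countable_singleton (e α)).mono ?_
      rintro _ ⟨⟨β, rfl⟩, h⟩
      exact congrArg e (by_contra fun n => h (h2 α β (Ne.symm n)))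
    | zero => simp
    | add f g _ _ h1 h2 =>
      refine (h1.union h2).mono fun m hm => by_contra fun n => hm.2 ?_
      rw [add_apply, show f m = 0 from by_contra fun k => n (Or.inl (And.intro hm.1 k)),
        show g m = 0 from by_contra fun k => n (Or.inr (And.intro hm.1 k)), add_zero]
    | smul a f _ h =>
      exact h.mono fun m hm => And.intro hm.1 fun k => hm.2 (by rw [smul_apply, k, smul_zero])) hs
  exact k P p1 p2

end Pool.Agent.Results.MP_a4e3f3_an.NoNorming
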